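import Pool.Agent.Helper53.KC.Goals

/-! # KC-CEN: central ranks -/

set_option autoImplicit false

namespace Pool.Agent.Helper49.KC

open Pool.Agent.Helper53.KC Finset

theorem choose_le (n r : ℕ) (hr : r ≤ n) : n.choose r * 3 ^ (n - r) ≤ 4 ^ n := by
  have h := add_pow (1 : ℕ) 3 n
  have h2 : n.choose r * 3 ^ (n - r) = 1 ^ r * 3 ^ (n - r) * n.choose r := by
    rw [one_pow, one_mul, mul_comm]
  rw [show (4 : ℕ) = 1 + 3 by norm_num, h, h2]
  exact Finset.single_le_sum (f := fun m => 1 ^ m * 3 ^ (n - m) * n.choose m)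
    (fun i _ => Nat.zero_le _) (Finset.mem_range.2 (by omega))

theorem key (n r : ℕ) (hr : r ≤ n) (h4 : 4 * r < n) (hc : 2 ^ n ≤ n ^ 3 * n.choose r) :
    432 ^ n ≤ n ^ 12 * 256 ^ n := by
  have h1 : (n.choose r * 3 ^ (n - r)) ^ 4 ≤ (4 ^ n) ^ 4 := Nat.pow_le_pow_left (choose_le n r hr) 4
  have h2 : n.choose r ^ 4 * 27 ^ n ≤ 256 ^ n := by
    calc n.choose r ^ 4 * 27 ^ n = n.choose r ^ 4 * 3 ^ (3 * n) := by
          rw [pow_mul]; norm_num
      _ ≤ n.choose r ^ 4 * 3 ^ ((n - r) * 4) :=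
          Nat.mul_le_mul_left _ (Nat.pow_le_pow_right (by norm_num) (by omega))
      _ = (n.choose r * 3 ^ (n - r)) ^ 4 := by rw [mul_pow, ← pow_mul]
      _ ≤ (4 ^ n) ^ 4 := h1
      _ = 256 ^ n := by rw [← pow_mul, mul_comm, pow_mul]; norm_num
  have h3 : (2 ^ n) ^ 4 ≤ (n ^ 3 * n.choose r) ^ 4 := Nat.pow_le_pow_left hc 4
  calc 432 ^ n = (2 ^ n) ^ 4 * 27 ^ n := by
        rw [← pow_mul, mul_comm n 4, pow_mul, ← mul_pow]; norm_num
    _ ≤ (n ^ 3 * n.choose r) ^ 4 * 27 ^ n := Nat.mul_le_mul_right _ h3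
    _ = n ^ 12 * (n.choose r ^ 4 * 27 ^ n) := by rw [mul_pow, ← pow_mul]; ring
    _ ≤ n ^ 12 * 256 ^ n := Nat.mul_le_mul_left _ h2

theorem large : ∃ n₀ : ℕ, ∀ n ≥ n₀, n ^ 12 * 256 ^ n < 432 ^ n := by
  have h := tendsto_pow_const_mul_const_pow_of_abs_lt_one 12 (r := (256 / 432 : ℝ))
    (by rw [abs_of_nonneg (by norm_num)]; norm_num)
  obtain ⟨n₀, hn₀⟩ := Filter.eventually_atTop.1 (h.eventually_lt_const zero_lt_one)
  refine ⟨n₀, fun n hn => ?_⟩
  have h1 := hn₀ n hn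
  rw [div_pow] at h1
  have h2 : (0 : ℝ) < 432 ^ n := by positivity
  have h3 : (n : ℝ) ^ 12 * 256 ^ n < 432 ^ n := by
    rw [← mul_div_assoc, div_lt_one h2] at h1
    exact h1
  exact_mod_cast h3

theorem step1 (n k : ℕ) (h : n + 1 ≤ 5 * (k + 1)) : (n + 1).choose (k + 1) ≤ 5 * n.choose k := by
  have h1 := Nat.add_one_mul_choose_eq n k
  have h2 : (n + 1).choose (k + 1) * (k + 1) ≤ (5 * n.choose k) * (k + 1) := by
    calc (n + 1).choose (k + 1) * (k + 1) = (n + 1) * n.choose k := h1.symm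
      _ ≤ 5 * (k + 1) * n.choose k := Nat.mul_le_mul_right _ h
      _ = (5 * n.choose k) * (k + 1) := by ring
  exact Nat.le_of_mul_le_mul_right h2 (by omega)

theorem step2 (n k : ℕ) (h : n + 1 ≤ 5 * (n + 1 - k)) : (n + 1).choose k ≤ 5 * n.choose k := by
  have h1 := Nat.choose_mul_succ_eq n k
  have h2 : (n + 1).choose k * (n + 1 - k) ≤ (5 * n.choose k) * (n + 1 - k) := by
    calc (n + 1).choose k * (n + 1 - k) = n.choose k * (n + 1) := h1.symm
      _ ≤ n.choose k * (5 * (n + 1 - k)) := Nat.mul_le_mul_left _ h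
      _ = (5 * n.choose k) * (n + 1 - k) := by ring
  exact Nat.le_of_mul_le_mul_right h2 (by omega)

theorem steps1 (n r a : ℕ) (hr : r ≤ n) (h : n + 5 * a ≤ 5 * r) :
    n.choose r ≤ 5 ^ a * (n - a).choose (r - a) := by
  induction a with
  | zero => simp
  | succ a ih =>
    refine (ih (by omega)).trans ?_
    have e1 : n - a = (n - (a + 1)) + 1 := by omega
    have e2 : r - a = (r - (a + 1)) + 1 := by omega
    have h1 := step1 (n - (a + 1)) (r - (a + 1)) (by omega)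
    rw [e1, e2, pow_succ, mul_assoc]
    exact Nat.mul_le_mul_left _ h1

theorem steps2 (n r b : ℕ) (hr : r ≤ n) (h : n + 5 * b ≤ 5 * (n - r)) :
    n.choose r ≤ 5 ^ b * (n - b).choose r := by
  induction b with
  | zero => simp
  | succ b ih =>
    refine (ih (by omega)).trans ?_
    have e1 : n - b = (n - (b + 1)) + 1 := by omega
    have h1 := step2 (n - (b + 1)) r (by omega)
    rw [e1, pow_succ, mul_assoc]
    exact Nat.mul_le_mul_left _ h1

theorem cen : CenStmt := by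
  constructor
  · obtain ⟨n₀, hn₀⟩ := large
    refine ⟨n₀, fun n hn r hC => ?_⟩
    obtain ⟨hr, hc⟩ := hC
    constructor
    · by_contra hlt
      have h1 := key n r hr (by omega) hc
      have h2 := hn₀ n hn
      omega
    · by_contra hlt
      have h1 := key n (n - r) (Nat.sub_le _ _) (by omega) (by rw [Nat.choose_symm hr]; exact hc)
      have h2 := hn₀ n hn
      omega
  · intro a b
    refine ⟨20 * (a + b), fun n hn r h1 h2 => ?_⟩
    have hr : r ≤ n := by omega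
    have h3 := steps1 n r a hr (by omega)
    have h4 := steps2 (n - a) (r - a) b (by omega) (by omega)
    calc n.choose r ≤ 5 ^ a * (n - a).choose (r - a) := h3
      _ ≤ 5 ^ a * (5 ^ b * (n - a - b).choose (r - a)) := Nat.mul_le_mul_left _ h4
      _ = 5 ^ (a + b) * (n - a - b).choose (r - a) := by rw [pow_add, mul_assoc]

end Pool.Agent.Helper49.KC
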